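import Pool.Agent.Work.MP_b51559_nt.LF.AP.Fin49

/-!
# Two primes and almost prime companions among 49 linear forms

Let `a i * n + b i` (`i < 49`) be distinct linear forms with `a i > 0`, such that no prime divides the
product of their values at every integer, and let `G` be a finite set of further linear forms, none
proportional to one of the 49. There are `c > 0` and `N` such that for every `x ≥ N` at least
`c * x / (log x) ^ 49` of the `n` in `(x, 2 x]` have the following properties: two of the values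
`a i * n + b i` are distinct primes, all 49 values are free of prime factors up to `x ^ c`, and no
value of a form of `G` is a prime.
-/

set_option autoImplicit false

namespace Pool.Agent.Results.MP_b51559_nt.LinearForms49

theorem result (a : Fin 49 → ℕ) (b : Fin 49 → ℤ) (ha : ∀ i, 0 < a i)
    (hab : ∀ i j, a i = a j → b i = b j → i = j)
    (hadm : ∀ p : ℕ, p.Prime → ∃ v : ℤ, ∀ i, ¬ (p : ℤ) ∣ a i * v + b i)
    (G : Finset (ℤ × ℤ)) (hG : ∀ g ∈ G, 0 < g.1 ∧ ∀ i, g.1 * b i ≠ a i * g.2) :
    ∃ c : ℝ, 0 < c ∧ ∃ N : ℕ, ∀ x : ℕ, N ≤ x → c * x / Real.log x ^ 49 ≤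
      Set.ncard {n : ℕ | x < n ∧ n ≤ 2 * x ∧
        (∀ i, ∀ p : ℕ, p.Prime → (p : ℤ) ∣ a i * n + b i → (x : ℝ) ^ c < p) ∧
        (∃ i j : Fin 49, ∃ p q : ℕ, p.Prime ∧ q.Prime ∧ p < q ∧
          (a i : ℤ) * n + b i = p ∧ (a j : ℤ) * n + b j = q) ∧
        ∀ g ∈ G, ¬ Prime (g.1 * (n : ℤ) + g.2)} :=
  MPb51559.BG.LF.forms49_full a b ha hab hadm G hG

end Pool.Agent.Results.MP_b51559_nt.LinearForms49
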