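import Pool.Agent.Work.MP_b51559_nt.BG.Q.All

set_option autoImplicit false

/-!
# A quarter of the differences of every large admissible set are gaps between consecutive primes

For every `ε > 0` there is `K` such that for every admissible set `V` of at least `K` natural numbers
and every `x ≥ x₀(V)` at least `(1/4 - ε) |V|²` of the ordered pairs `(a, b)` of different elements of
`V` are such that `n + a` and `n + b` are consecutive primes in `(x, 2x)` for some `n > x`.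
-/

namespace Pool.Agent.Results.MP_b51559_nt.QuarterOfDifferences

theorem result (ε : ℝ) (hε : 0 < ε) :
    ∃ K : ℕ, ∀ V : Finset ℕ, K ≤ V.card →
      (∀ p : ℕ, p.Prime → ∃ v : ℕ, ∀ a ∈ V, ¬ p ∣ v + a) →
      ∃ x₀ : ℕ, ∀ x : ℕ, x₀ ≤ x →
        (1 / 4 - ε) * (V.card : ℝ) ^ 2 ≤
          (Set.ncard {y : ℕ × ℕ | y.1 ∈ V ∧ y.2 ∈ V ∧ y.1 ≠ y.2 ∧ ∃ n : ℕ, x < n ∧
            n + y.1 < 2 * x ∧ n + y.2 < 2 * x ∧ (n + y.1).Prime ∧ (n + y.2).Prime ∧
            ∀ q : ℕ, q.Prime → ¬ (n + y.1 < q ∧ q < n + y.2) ∧ ¬ (n + y.2 < q ∧ q < n + y.1)} : ℝ) :=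
  MPb51559.BG.Q.quarter ε hε

end Pool.Agent.Results.MP_b51559_nt.QuarterOfDifferences
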